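import Pool.Agent.H2.ED.Targets

/-! # Row XCH: exchange of two bases -/

set_option autoImplicit false

namespace Pool.Agent.H5.ED

open Pool.Agent.H2.ED

theorem pf_XCH : T_XCH := by
  classical
  intro κ W _ _ _ c a b ha hb hba p hp
  induction p with
  | zero => exact ⟨a, ha, fun i h => absurd h (Nat.not_lt_zero _), fun i _ => ⟨i, rfl⟩⟩
  | succ p ih =>
    obtain ⟨f, hf, hf1, hf2⟩ := ih (by omega)
    obtain ⟨q, hqp⟩ : ∃ q : Fin c, (q : ℕ) = p := ⟨⟨p, by omega⟩, rfl⟩
    have hfa : ∀ i, f i ∈ Submodule.span κ (Set.range a) := by
      intro i
      by_cases h : (i : ℕ) < p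
      · rw [hf1 i h]
        exact hba i
      · obtain ⟨i', e⟩ := hf2 i (not_lt.1 h)
        rw [e]
        exact Submodule.subset_span ⟨i', rfl⟩
    have hspan : Submodule.span κ (Set.range f) = Submodule.span κ (Set.range a) := by
      have : FiniteDimensional κ (Submodule.span κ (Set.range a)) :=
        FiniteDimensional.span_of_finite κ (Set.finite_range a)
      refine Submodule.eq_of_le_of_finrank_eq (Submodule.span_le.2 ?_) ?_
      · rintro _ ⟨i, rfl⟩
        exact hfa i
      · rw [finrank_span_eq_card hf, finrank_span_eq_card ha]
    have hq : b q ∈ Submodule.span κ (Set.range f) := by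
      rw [hspan]
      exact hba q
    obtain ⟨g, hg⟩ := (Submodule.mem_span_range_iff_exists_fun κ).1 hq
    obtain ⟨i₀, hi₀, hgi⟩ : ∃ i₀ : Fin c, p ≤ (i₀ : ℕ) ∧ g i₀ ≠ 0 := by
      by_contra hno
      push Not at hno
      have h1 := Fintype.linearIndependent_iff.1 hb (fun i => g i - if i = q then 1 else 0) (by
        simp only [sub_smul, Finset.sum_sub_distrib, ite_smul, one_smul, zero_smul,
          Finset.sum_ite_eq', Finset.mem_univ, if_true]
        rw [sub_eq_zero, ← hg]
        refine Finset.sum_congr rfl fun i _ => ?_
        by_cases h : (i : ℕ) < p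
        · rw [hf1 i h]
        · rw [hno i (not_lt.1 h), zero_smul, zero_smul]) q
      simp only [if_true] at h1
      rw [hno q hqp.ge] at h1
      simp at h1
    have hu : LinearIndependent κ (Function.update f i₀ (b q)) := by
      rw [Fintype.linearIndependent_iff]
      intro k hk
      have h1 := Fintype.linearIndependent_iff.1 hf
        (fun i => (if i = i₀ then 0 else k i) + k i₀ * g i) (by
          simp only [add_smul, Finset.sum_add_distrib, mul_smul]
          rw [← Finset.smul_sum, hg, ← hk, ← Finset.add_sum_erase _ _ (Finset.mem_univ i₀),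
            ← Finset.add_sum_erase Finset.univ (fun i => k i • Function.update f i₀ (b q) i)
              (Finset.mem_univ i₀)]
          simp only [if_true, zero_smul, zero_add, Function.update_self]
          rw [add_comm]
          congr 1
          refine Finset.sum_congr rfl fun i hi => ?_
          have h2 : i ≠ i₀ := Finset.ne_of_mem_erase hi
          rw [if_neg h2, Function.update_of_ne h2])
      have h2 : k i₀ = 0 := by
        have := h1 i₀
        simp only [if_true, zero_add] at this
        exact (mul_eq_zero.1 this).resolve_right hgi
      intro i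
      by_cases h : i = i₀
      · rw [h, h2]
      · have := h1 i
        simp only [if_neg h, h2, zero_mul, add_zero] at this
        exact this
    refine ⟨Function.update f i₀ (b q) ∘ Equiv.swap q i₀,
      (linearIndependent_equiv (Equiv.swap q i₀)).2 hu, fun i hi => ?_, fun i hi => ?_⟩
    · by_cases h : i = q
      · rw [h, Function.comp_apply, Equiv.swap_apply_left, Function.update_self]
      · have h3 : (i : ℕ) < p := by
          rcases Nat.lt_succ_iff_lt_or_eq.1 hi with h4 | h4
          · exact h4
          · exact absurd (Fin.ext (h4.trans hqp.symm)) h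
        have h4 : i ≠ i₀ := by
          rintro rfl
          omega
        rw [Function.comp_apply, Equiv.swap_apply_of_ne_of_ne h h4, Function.update_of_ne h4,
          hf1 i h3]
    · have h : i ≠ q := by
        rintro rfl
        omega
      by_cases h4 : i = i₀
      · have h5 : q ≠ i₀ := fun e => h (h4.trans e.symm)
        rw [h4, Function.comp_apply, Equiv.swap_apply_right, Function.update_of_ne h5]
        exact hf2 q hqp.ge
      · rw [Function.comp_apply, Equiv.swap_apply_of_ne_of_ne h h4, Function.update_of_ne h4]
        exact hf2 i (by omega)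

end Pool.Agent.H5.ED
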